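import Pool.Agent.Helper106.VG.Asm
import Pool.Agent.Helper106.VG.A
import Pool.Agent.Helper106.VG.C1
import Pool.Agent.Helper106.VG.TC2
import Pool.Agent.Helper106.VG.C3
import Pool.Agent.Helper106.VG.C4
import Pool.Agent.Helper106.VG.C5
import Pool.Agent.Helper106.VG.C6
import Pool.Agent.Helper106.VG.C7
import Pool.Agent.Helper106.VG.C8
import Pool.Agent.Helper106.VG.D1
import Pool.Agent.Helper106.VG.D2
import Pool.Agent.Helper106.VG.D3
import Pool.Agent.Helper106.VG.D4
import Pool.Agent.Helper106.VG.D5
import Pool.Agent.Helper106.VG.E1
import Pool.Agent.Helper106.VG.E2
import Pool.Agent.Helper106.VG.E3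

/-!
# Finitely generated simple vigorous groups have infinite uniform spread (MP_e1f4dd_al, Q1: the answer is yes)

Every 3-cycle (of clopen sets, along maps locally in `G`) lies in `G` and `G` is generated by finitely many commutators
of 3-cycles. The element `σ` is a product of two commuting cycles with disjoint supports and coprime orders, a `c0`-cycle
on copies `D_j` of a clopen set `F` and a `c1`-cycle on copies `E_j` of a set `E`, whose return maps together generate
the group of `F`. Given `α_1,…,α_k`, the conjugate of `σ` is placed so that `α_i` maps the small set `D_i` onto the copy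
`E_{2i} ∪ Q_{2i+1}` of `F` in the right way, and the `D_j`, `j ≠ i`, away from the support of the second return map.
-/

namespace Pool.Agent.Results.MP_e1f4dd_al.UniformSpread

open Pool.Agent.Helper106.VG in
/-- Every finitely generated simple vigorous group of homeomorphisms of Cantor space has infinite uniform spread. -/
theorem result (G : Subgroup Hm) (hv : Vigorous G) (hs : IsSimpleGroup G) (hf : Group.FG G) :
    uSpread G = ⊤ := by
  have hgerm := c_germ a_room b_move
  have htri := c_tri hgerm a_ci a_room
  have htop := c_top b_small htri
  have hext := c_ext htri b_small b_img b_comp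
  have hunion := c_union a_ci a_room b_img b_small htri
  have hperf := c_perf a_ci a_room b_img b_small c_comm htri
  have hfg := c_fg htop hperf
  have hcyc := c_cyc htri
  have hcompress := c_compress b_small
  have hcopy := c_copy b_inv b_comp htri
  have hpair := d_pair b_img b_comp b_small htri hcyc hcopy
  have hgen := d_gen b_img htop c_supp c_conj hunion hcopy
  have htwo := d_two hpair hgen hfg
  have hgeo := d_geo b_img b_inv b_comp hcompress
  have hdesign := d_design htwo hgeo hcyc hext htop c_supp b_img
  have hone := e_one c_supp hperf e_pow (e_diag hperf)
  have hlink := e_link hunion c_conj htop e_pow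
  have hplace := e_place a_room b_small htop hext
  exact asm_final hdesign hone hlink hplace G hv hs hf

end Pool.Agent.Results.MP_e1f4dd_al.UniformSpread
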